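import Pool.Agent.Helper815.Pebble.Main

/-!
The pebbling number of every connected Kneser graph `K(m, t)` is at most `224` times its number
of vertices.
-/

set_option autoImplicit false

namespace Pool.Agent.Results.MP_95cf8e_co.LinearBound

/-- The Kneser graph `K(m, t)`: the vertices are the `t`-element subsets of an `m`-element set,
two (different) vertices are adjacent when they are disjoint. -/
def kneser (m t : ℕ) : SimpleGraph {s : Finset (Fin m) // s.card = t} where
  Adj a b := a ≠ b ∧ Disjoint a.1 b.1
  symm := ⟨fun _ _ h => ⟨h.1.symm, h.2.symm⟩⟩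
  loopless := ⟨fun _ h => h.1 rfl⟩

section

variable {V : Type} [DecidableEq V]

/-- One pebbling move from the configuration `C` to the configuration `C'`: two pebbles are taken
off a vertex `u` and one pebble is put on a neighbour `v` of `u`, so that
`C' + 2 e_u = C + e_v`. (As `u ≠ v`, this forces `C u ≥ 2`.) -/
def Move (G : SimpleGraph V) (C C' : V → ℕ) : Prop :=
  ∃ u v : V, G.Adj u v ∧ C' + Pi.single u 2 = C + Pi.single v 1

/-- `C` is `r`-solvable: some finite sequence of pebbling moves puts at least one pebble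
on `r`. -/
def Solvable (G : SimpleGraph V) (r : V) (C : V → ℕ) : Prop :=
  ∃ C' : V → ℕ, Relation.ReflTransGen (Move G) C C' ∧ 1 ≤ C' r

/-- `π(G, r)`: the least `k` such that every configuration of size `k` is `r`-solvable. -/
noncomputable def rootedPebblingNumber [Fintype V] (G : SimpleGraph V) (r : V) : ℕ :=
  sInf {k : ℕ | ∀ C : V → ℕ, ∑ v, C v = k → Solvable G r C}

/-- The pebbling number `π(G)`, the maximum of `π(G, r)` over all vertices `r`. -/
noncomputable def pebblingNumber [Fintype V] (G : SimpleGraph V) : ℕ :=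
  Finset.univ.sup fun r => rootedPebblingNumber G r

end

/-- For all `t ≥ 1` and `m ≥ 2 t + 1`: every configuration of at least `224 * C(m, t)` pebbles on
the Kneser graph `K(m, t)` is `r`-solvable for every `r`, and `π(K(m, t)) ≤ 224 * C(m, t)`. -/
theorem result (m t : ℕ) (_ht : 1 ≤ t) (hm : 2 * t + 1 ≤ m) :
    (∀ (r : {s : Finset (Fin m) // s.card = t}) (C : {s : Finset (Fin m) // s.card = t} → ℕ),
      224 * m.choose t ≤ ∑ v, C v → Solvable (kneser m t) r C) ∧
    pebblingNumber (kneser m t) ≤ 224 * m.choose t := by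
  have h1 : ∀ (r : {s : Finset (Fin m) // s.card = t})
      (C : {s : Finset (Fin m) // s.card = t} → ℕ),
      224 * m.choose t ≤ ∑ v, C v → Solvable (kneser m t) r C := by
    intro r C hC
    have : Fact (2 * t + 1 ≤ m) := ⟨hm⟩
    obtain ⟨E, hE, hle⟩ := Pool.Agent.Helper815.Pebble.main_lemma C r hC
    refine ⟨E, ?_, ?_⟩
    · refine hE.lift id ?_
      rintro A B ⟨u, v, h1, h2, h3⟩
      exact ⟨u, v, ⟨h1, h2⟩, h3⟩
    · have := hle r
      simpa using this
  refine ⟨h1, ?_⟩
  apply Finset.sup_le
  intro r _
  apply Nat.sInf_le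
  intro C hC
  exact h1 r C hC.ge

end Pool.Agent.Results.MP_95cf8e_co.LinearBound
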